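import Pool.Agent.N676.OR.Cnt
import Pool.Agent.N676.OR.Diag
import Pool.Agent.N676.OR.ZC
import Pool.Agent.Results.MP_bd895b_nt.LocalGlobalComplexOfTwists

/-!
# The local-global complex for zero-cycles modulo 2 on twists of cyclic coverings along random orbits

Let `b y ^ 2 = ∏ k, G k (z, w)` be a hyperelliptic curve `D` over `ℚ`, where the `G k` are the
homogenisations of polynomials `g k` with integral coefficients, of even degrees, pairwise coprime, and
let `h` be a polynomial with integral coefficients, coprime to the `g k`, `H` its homogenisation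
(`Admissible`). For an integer `a` and an even `m ∣ deg h` let

  `C a : b y ^ 2 = ∏ k, G k (z, w)`, `a x ^ m = H (z, w)`.

The starting result `LocalGlobalComplexOfTwists` (whose definitions are used) treats 100% of the
squarefree integers `|a| ≤ X`, for one family `(b, g, h)`. Here `a = λ(c)` is the value of a linear form
`λ ≠ 0` with integral coefficients at the vectors of a random orbit: `W` is a finite family
`s_0, …, s_M` of matrices in `SL_r(ℤ)`, `r ≥ 2`, which generates `SL_r(ℤ/q)` for all `q` prime to some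
`q₀` (by strong approximation this is so for every finite set of matrices which generates a Zariski
dense subgroup, for example a thin one), `w 0, w 1, …` are independent uniformly distributed indices,
and `c_t = s_(w (t-1)) ⋯ s_(w 0) v`.

**Theorem.** (1) For every family `(b, g, h)` and every `λ ≠ 0` the set of the vectors `c` for which
`a = λ(c)` does not have the property `Good` is pronull: its closure in the product of the `ℤ_p^r`,
`p` not dividing `M`, has Haar measure zero, for all `M`.

(2) For almost every word `w` there is ONE set `E` of times of density zero such that for ALL vectors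
`v ≠ 0`, ALL linear forms `λ ≠ 0` and ALL families `(b, g, h)` the integer `a = λ(c_t)` has the property
`Good` for all but finitely many `t` outside `E`.

`Good` means that for all even `m ∣ deg h` and every adelic zero-cycle `(z_v)` on `C a`, of degrees
congruent to `d` modulo 2, which is orthogonal to the quaternion algebras `(G k, e)`:
* there are squarefree integers `n k` with `G k (z_v) = n k` in `ℚ_v* / ℚ_v*²` for all `k` and all `v`,
  and the family `n` is persistent;
* if the zeros of `h` are one or two rational numbers `α₁`, `α₂`, and `d` is odd or `b ∏ g k (α₁)` is a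
  square, there is a zero-cycle `z` of degree `d` over `ℚ` with `G k (z) = G k (z_v)` in
  `ℚ_v* / ℚ_v*²` for all `k` and all `v`: the complex
  `CH₀(C a) / 2 → ∏ v, CH₀(C a over ℚ_v) / 2 → Hom(Br, ℚ/ℤ)` is exact up to the kernels of the `(G k)`.

The proof: the local analysis of helper925 (starting library, `Pool.Agent.R925.ZC`) at a prime which
divides `a` exactly once and has a given Frobenius element, here for integers `a` which are not
squarefree; the set of the `c` such that no prime with this Frobenius element divides `λ(c)` exactly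
once is pronull, and by the theorem of `Pool.Agent.N24.RW` (helper24 and helpers 543, 195, 300, 765,
340, 123) the random orbit is in a pronull set only at times of density zero; there are only countably
many conditions.
-/

set_option autoImplicit false

namespace Pool.Agent.Results.MP_bd895b_nt.RandomOrbits

open Polynomial MeasureTheory Pool.Agent.R925.FD Pool.Agent.R925.ZC
open Pool.Agent.N24.RW Pool.Agent.N676.OR
open Pool.Agent.Results.MP_bd895b_nt.LocalGlobalComplexOfTwists (Admissible OfPersistentClass)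

/-- The statements on the local-global complex for the curves `C a`, `m` even, `m ∣ deg h`. -/
def Good {r : ℕ} (b : ℤ) (g : Fin r → ℤ[X]) (h : ℤ[X]) (a : ℤ) : Prop :=
  (∀ m : ℕ, 0 < m → Even m → m ∣ h.natDegree → ∀ (d : ℤ) (Z : AdelicCycle m b a g h),
    Z.Parity d → Z.Orthogonal → OfPersistentClass d Z) ∧
  (∀ α₁ α₂ : ℚ, (∀ β : AlgebraicClosure ℚ, aeval β h = 0 ↔ β = α₁ ∨ β = α₂) →
    ∀ m : ℕ, 0 < m → Even m → m ∣ h.natDegree → ∀ (d : ℤ) (Z : AdelicCycle m b a g h),
      Z.Parity d → Z.Orthogonal → (Odd d ∨ IsSquare ((b : ℚ) * ∏ k, aeval α₁ (g k))) →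
      ∃ z : Cycle m b a g h ℚ, z.degree = d ∧ SameValues Z z)

lemma good_of {r : ℕ} {b : ℤ} {g : Fin r → ℤ[X]} {h : ℤ[X]} (hA : Admissible b g h) :
    ∃ PP : Set (Set ℕ), PP.Finite ∧ (∀ P ∈ PP, Big P) ∧
      ∀ a : ℤ, (∀ P ∈ PP, Hit P a) → Good b g h a := by
  classical
  obtain ⟨PP, h1, h2, h3⟩ := zc_once hA.b_ne hA.g_ne hA.h_deg hA.deg hA.coprime hA.coprime_h
  refine ⟨PP, h1, h2, fun a ha => ⟨?_, ?_⟩⟩
  · intro m _ hm hmh d Z hd hZ
    exact h3 a ha m hm hmh d Z hd hZ
  · intro α₁ α₂ hz m hm0 hm hmh d Z hd hZ hu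
    obtain ⟨n, hn1, hn2, hn3, hn4, hn5⟩ := h3 a ha m hm hmh d Z hd hZ
    obtain ⟨z, hz1, hz2⟩ := realize (m := m) (a := a) hm0 hA.b_ne hz
      (fun k => g_ne hA.h_deg hA.coprime_h ((hz α₁).2 (Or.inl rfl)) k)
      (fun k => g_ne hA.h_deg hA.coprime_h ((hz α₂).2 (Or.inr rfl)) k) hu _ hn2 hn3
    exact ⟨z, hz1, fun k => same_aux (hn1 k).ne_zero (hn4 k) (hz2 k).2,
      fun k p => same_aux (hn1 k).ne_zero (hn5 k p) (hz2 k).2⟩

theorem result :
    (∀ (r : ℕ) (b : ℤ) (g : Fin r → ℤ[X]) (h : ℤ[X]), Admissible b g h →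
      ∀ (ι : Type) [Fintype ι] (lam : ι → ℤ), lam ≠ 0 →
        ProNull {c : ι → ℤ | ¬ Good b g h (∑ i, lam i * c i)}) ∧
    (∀ (ι : Type) [Fintype ι] [DecidableEq ι], 2 ≤ Fintype.card ι → ∀ W : Walk ι,
      ∀ᵐ w ∂(words W.m), ∃ E : Set ℕ, DensityZero E ∧
        ∀ v : ι → ℤ, v ≠ 0 → ∀ lam : ι → ℤ, lam ≠ 0 →
          ∀ (r : ℕ) (b : ℤ) (g : Fin r → ℤ[X]) (h : ℤ[X]), Admissible b g h →
            {t : ℕ | t ∉ E ∧ ¬ Good b g h (∑ i, lam i * orb W v w t i)}.Finite) := by
  classical
  have hcp := countable_poly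
  have key := orbit_principle (𝔇 := Σ r : ℕ, ℤ × (Fin r → ℤ[X]) × ℤ[X])
    (fun D a => Admissible D.2.1 D.2.2.1 D.2.2.2 → Good D.2.1 D.2.2.1 D.2.2.2 a) (by
    rintro ⟨r, b, g, h⟩
    by_cases hA : Admissible b g h
    · obtain ⟨PP, h1, h2, h3⟩ := good_of hA
      exact ⟨PP, h1, h2, fun a ha _ => h3 a ha⟩
    · exact ⟨∅, Set.finite_empty, fun P hP => absurd hP (Set.notMem_empty _),
        fun a _ hA' => absurd hA' hA⟩)
  refine ⟨?_, ?_⟩
  · intro r b g h hA ι _ lam hlam
    refine Clo.mono ?_ (key.1 ι lam hlam ⟨r, b, g, h⟩)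
    intro c hc hgood
    exact hc (hgood hA)
  · intro ι _ _ hι W
    filter_upwards [key.2 ι hι W] with w hw
    obtain ⟨E, hE, hall⟩ := hw
    refine ⟨E, hE, fun v hv lam hlam r b g h hA => ?_⟩
    refine (hall v hv lam hlam ⟨r, b, g, h⟩).subset ?_
    rintro t ⟨ht, ht'⟩
    exact ⟨ht, fun hgood => ht' (hgood hA)⟩

end Pool.Agent.Results.MP_bd895b_nt.RandomOrbits
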