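import Pool.Agent.N874.TF.All
import Pool.Agent.N874.Jac.Def

/-!
# Zero-cycles on elliptic curves over every number field: exactness at the prime 2 over 2-extensions

Let `F` be ANY number field. We consider the elliptic curves `E : y ^ 2 = x ^ 3 + A x + B` where `(A, B)` is
a pair of integers of `F` with `4 A³ + 27 B² ≠ 0` for which there is no prime `𝔭` with `𝔭⁴ ∣ A` and
`𝔭⁶ ∣ B`, ordered by the height `max_σ max (4 |σ A|³, 27 |σ B|²)`.

For `E` and a finite set `Q` of primes of `F` let `C(E, Q)` be the class of all the finite Galois extensions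
`M / F` of 2-power degree in which all the infinite places of `F`, all the primes over `2` and all
`v ∈ Q` split completely and in which only primes are ramified modulo which `x ^ 3 + A x + B` is
irreducible.

Theorem. For every number field `F` and every finite set `T` of primes of `F` there are a finite set `Q` of
primes of `F`, disjoint from `T` and prime to `2`, and a constant `c > 0` such that for all large `X` at
least `c` times the number of all the curves of height at most `X` have an irreducible
`x ^ 3 + A x + B`, which is also irreducible modulo all the primes over `2` and all `v ∈ T`, are twists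
(`A = D² A₀`, `B = D³ B₀`) of a curve such that no square of a prime divides
`4 A₀³ + 27 B₀²`, and satisfy: for ALL `M ∈ C(E, Q)` the group `E(M)` is finite of odd order, and all
classes of 2-power order in the Tate-Shafarevich group of `E` over `M` are zero.

(`D` is a product of different prime numbers `q ≡ 1 mod 8`, and the primes of `F` over `q` which are not in
`Q` are such that `x ^ 3 + A₀ x + B₀` is irreducible modulo them.)

The question Q1 for `X = E` over `k = M`. The complex is the product of its `ℓ`-primary parts (the limits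
over the powers `n` of `ℓ`). A family of local zero-cycles which is orthogonal to `Br(M)` has the same
degree everywhere; subtracting a multiple of the origin one has degree zero, and, as
`Br(E_M) / Br(M) = H¹(M, E)`, the complex `E(M)^ → ∏ E(M_v)^ → Hom(H¹(M, E), ℚ/ℤ)` (at the real places modulo
norms). By the duality theorem of Cassels and Tate (Cassels 1964; Saito and Colliot-Thélène for curves of
any genus) its homology at the prime `ℓ` is the Tate module `T_ℓ Sha(E / M)`. So the theorem says: over EVERY number field `F`, for a positive proportion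
of ALL the elliptic curves `E` and for ALL the fields `M ∈ C(E, Q)` the 2-primary part of the complex for
`E` over `M` is exact, unconditionally. As `E(M)` is finite of odd order, both sides are known: a family of
local zero-cycles in `∏ lim CH_0(E_{M_v})^* / 2 ^ m` is orthogonal to `Br(E_M)` if and only if it is an
integral 2-adic multiple of the origin.

The class `C(E, Q)` is closed under composita and infinite: the polynomial is irreducible modulo the
primes over `2`, so its Galois group contains an element of order 3, and by the theorem of Chebotarev there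
are infinitely many primes modulo which it is irreducible; it contains many quadratic extensions, also
those of its members, and many non-abelian extensions of unbounded degree. `E` is a curve over the arbitrary
field `F`; nothing is assumed on modularity or on the Tate-Shafarevich group.

The parity conjecture holds for `E` over `M ∈ C(E, Q)`, `M ≠ F` too. The rank is 0; so it says that the
root number `w(E / M)` is `1`. Let `[M : F] = 2 ^ n`, `n ≥ 1`. Over each infinite place of `F`, each prime
over `2` and each `v ∈ Q` there are `2 ^ n` places with equal root numbers, so their product is 1. At the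
primes over the prime divisors of `D` which are not in `Q`, and at the ramified primes, `x ^ 3 + A₀ x + B₀`
is irreducible modulo the prime, so `E` is the twist with `D` of a curve with good reduction, and the local
root number is the symbol `(-1, D) = 1`, as `-1` is a square in `ℚ_q`. At the other primes `v` which divide
`Δ = 4 A₀³ + 27 B₀²` the reduction is multiplicative, and `M / F` is unramified. If the number of places `w`
over `v` is even, their equal root numbers have the product 1. If it is odd, then it is 1, and `M / F` is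
cyclic, `M_w / F_v` is unramified of degree `2 ^ n`, and `w(E / M_w) = -1`, because over an unramified
extension of even degree the reduction is split. In this case let `F(√d) ⊆ M`; these `v` are the `v ∣ Δ`
(outside `D`) which are inert in `F(√d)`. The number of these `v` is even by the product formula for the
symbols `(d, -Δ)_v`: at the places which split completely in `M` the symbol is 1; at the ramified primes,
and at the primes over `D` which are not in `Q`, `-Δ` is a square because the cubic is irreducible modulo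
`v` (the Galois group over `F_v` is cyclic of order three); at the other primes which do not divide `Δ` it is
1, and at the `v ∣ Δ` it is `-1` if and only if `v` is inert (`v` divides `Δ` exactly once).

Proof. We find the set `Q` and the curves with the methods of project PF (helper783,
`MP_7cad78_nt.RankZeroEveryNumberField`): lattices with a self-adjoint operator over `F`, reduction theory,
relaxed Selmer groups, quadratic reciprocity for trace forms and linear algebra over `F_2`. They show
that for a positive proportion a certain relaxed 2-Selmer group over `F` of the twist with `D` is zero. Let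
`M ∈ C(E, Q)` and let `θ` be a zero of the cubic. The local conditions over `M` define a group of elements of
`M(θ)` modulo squares which is stable under `Gal(M / F)`, a group of 2-power order; it is zero because its
invariant part comes from the relaxed Selmer group over `F`. Here one uses that the primes of `F(θ)` at
which `f'(θ)` is a unit are unramified in `M(θ)`, unless they divide a prime of `F` modulo which the cubic
is irreducible; at the only prime over such a prime the parity of the valuation follows from the norm.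

Project TF: helper874, based on project PF (helper783) and on the projects TQ, TW, QM, JM (helper874) and
JB (helper352), with parts by helpers 250, 300, 488. Parts of PF by helpers 31, 42, 61, 73, 75, 78, 99,
134, 169, 170, 189, 195, 225, 255, 286, 331, 352, 364, 374, 426, 438, 456, 459, 482, 490, 545, 547, 591, 614,
645, 667, 674, 707, 710, 747, 771, 823, 849, 862, 935, 951, 999; of QM, JM and JB by helpers 42, 106, 123,
160, 187, 199, 222, 232, 301, 394, 424, 438, 459, 521, 530, 615, 655, 711, 713, 738, 756, 814, 835, 849,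
891, 942, 999.
-/

set_option autoImplicit false
set_option linter.all false

namespace Pool.Agent.Results.MP_bd895b_nt.EveryNumberFieldAtTwo

open Polynomial Filter IsDedekindDomain NumberField
open Pool.Agent.N874.Jac (ShaTwoTrivialReal)
open scoped Classical

section defs

variable (F : Type) [Field F] [NumberField F]

/-- The family: pairs of integers `(A, B)` with `4 A ^ 3 + 27 B ^ 2 ≠ 0` for which no nonzero prime ideal
`𝔭` satisfies both `𝔭 ^ 4 ∣ A` and `𝔭 ^ 6 ∣ B`. -/
def Family : Set (𝓞 F × 𝓞 F) :=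
  {p | 4 * p.1 ^ 3 + 27 * p.2 ^ 2 ≠ 0 ∧
    ∀ 𝔭 : Ideal (𝓞 F), 𝔭.IsPrime → 𝔭 ≠ ⊥ → ¬ (p.1 ∈ 𝔭 ^ 4 ∧ p.2 ∈ 𝔭 ^ 6)}

variable {F}

/-- The height `max_σ max (4 |σ A|³, 27 |σ B|²)`, over the embeddings `σ : F → ℂ`. -/
noncomputable def height (p : 𝓞 F × 𝓞 F) : ℝ :=
  ⨆ σ : F →+* ℂ, max (4 * ‖σ (p.1 : F)‖ ^ 3) (27 * ‖σ (p.2 : F)‖ ^ 2)

variable (F) in
/-- The members of the family of height at most `X`. -/
def UpTo (X : ℝ) : Set (𝓞 F × 𝓞 F) := {p ∈ Family F | height p ≤ X}

/-- The polynomial `x ^ 3 + A x + B` over an extension `M` of `F`. -/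
noncomputable def cubic (M : Type) [Field M] [Algebra F M] (p : 𝓞 F × 𝓞 F) : M[X] :=
  X ^ 3 + C (algebraMap F M p.1) * X + C (algebraMap F M p.2)

/-- The curve `y ^ 2 = x ^ 3 + A x + B` over an extension `M` of `F`. -/
def curve (M : Type) [Field M] [Algebra F M] (p : 𝓞 F × 𝓞 F) : WeierstrassCurve M :=
  ⟨0, 0, 0, algebraMap F M p.1, algebraMap F M p.2⟩

/-- The group of the points over `M`. -/
abbrev points (M : Type) [Field M] [Algebra F M] (p : 𝓞 F × 𝓞 F) : Type :=
  (curve M p).toAffine.Point

/-- `x ^ 3 + A x + B` is irreducible modulo `v`. -/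
def IrreducibleMod (p : 𝓞 F × 𝓞 F) (v : HeightOneSpectrum (𝓞 F)) : Prop :=
  Irreducible ((X ^ 3 + C p.1 * X + C p.2 : (𝓞 F)[X]).map (Ideal.Quotient.mk v.asIdeal))

/-- `M / F` is unramified at `v`. -/
def Unramified (v : HeightOneSpectrum (𝓞 F)) (M : Type) [Field M] [NumberField M]
    [Algebra F M] : Prop :=
  ∀ w : HeightOneSpectrum (𝓞 M), v.asIdeal.map (algebraMap (𝓞 F) (𝓞 M)) ≤ w.asIdeal →
    ¬ v.asIdeal.map (algebraMap (𝓞 F) (𝓞 M)) ≤ w.asIdeal ^ 2

/-- `v` splits completely in `M`: it is unramified and all integers of `M` are congruent to integers of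
`F` modulo every prime over `v`. -/
def SplitsCompletely (v : HeightOneSpectrum (𝓞 F)) (M : Type) [Field M] [NumberField M]
    [Algebra F M] : Prop :=
  Unramified v M ∧
  ∀ w : HeightOneSpectrum (𝓞 M), v.asIdeal.map (algebraMap (𝓞 F) (𝓞 M)) ≤ w.asIdeal →
    ∀ y : 𝓞 M, ∃ c : 𝓞 F, y - algebraMap (𝓞 F) (𝓞 M) c ∈ w.asIdeal

/-- `M` belongs to the class `C(E, Q)`. -/
structure InClass (Q : Finset (HeightOneSpectrum (𝓞 F))) (p : 𝓞 F × 𝓞 F) (M : Type) [Field M]
    [NumberField M] [Algebra F M] : Prop where
  galois : IsGalois F M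
  degree : ∃ n : ℕ, Module.finrank F M = 2 ^ n
  real : ∀ ρ : F →+* ℝ, ∃ ρ' : M →+* ℝ, ρ'.comp (algebraMap F M) = ρ
  two : ∀ v : HeightOneSpectrum (𝓞 F), (2 : 𝓞 F) ∈ v.asIdeal →
    Nonempty (M →ₐ[F] v.adicCompletion F)
  split : ∀ v ∈ Q, SplitsCompletely v M
  ramified : ∀ v : HeightOneSpectrum (𝓞 F), Unramified v M ∨ IrreducibleMod p v

/-- The pair is, up to a twist by a product `D` of different prime numbers which are 1 modulo 8, a pair
with `4 A ^ 3 + 27 B ^ 2` not divisible by the square of a prime, and the prime divisors of `D` are in `Q`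
or the cubic polynomial is irreducible modulo them. -/
def AlmostSquarefree (Q : Finset (HeightOneSpectrum (𝓞 F))) (p : 𝓞 F × 𝓞 F) : Prop :=
  ∃ (D : ℕ) (p₀ : 𝓞 F × 𝓞 F),
    (∀ v : HeightOneSpectrum (𝓞 F), 4 * p₀.1 ^ 3 + 27 * p₀.2 ^ 2 ∉ v.asIdeal ^ 2) ∧
    p = ((D : 𝓞 F) ^ 2 * p₀.1, (D : 𝓞 F) ^ 3 * p₀.2) ∧ Squarefree D ∧
    (∀ q : ℕ, q.Prime → q ∣ D → q % 8 = 1) ∧
    ∀ v : HeightOneSpectrum (𝓞 F), (D : 𝓞 F) ∈ v.asIdeal → v ∈ Q ∨ IrreducibleMod p₀ v

/-- The properties of the curves in the theorem. -/
structure Good (Q T : Finset (HeightOneSpectrum (𝓞 F))) (p : 𝓞 F × 𝓞 F) : Prop where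
  irreducible : Irreducible (cubic F p)
  two : ∀ v : HeightOneSpectrum (𝓞 F), (2 : 𝓞 F) ∈ v.asIdeal → IrreducibleMod p v
  mod : ∀ v ∈ T, IrreducibleMod p v
  squarefree : AlmostSquarefree Q p
  rank : ∀ (M : Type) [Field M] [NumberField M] [Algebra F M], InClass Q p M →
    Finite (points M p) ∧ Odd (Nat.card (points M p)) ∧ ShaTwoTrivialReal (cubic M p) (𝓞 M)

end defs

theorem crv_iff {F : Type} [Field F] [NumberField F] (X : ℝ) (p : 𝓞 F × 𝓞 F) :
    Pool.Agent.N783.PF.Crv X p ↔ p ∈ UpTo F X := by
  have hb : BddAbove (Set.range fun σ : F →+* ℂ =>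
      max (4 * ‖σ (p.1 : F)‖ ^ 3) (27 * ‖σ (p.2 : F)‖ ^ 2)) := Set.Finite.bddAbove (Set.finite_range _)
  constructor
  · rintro ⟨h1, h2, h3⟩
    refine ⟨⟨h1, h2⟩, ciSup_le fun σ => max_le (h3 σ).1 (h3 σ).2⟩
  · rintro ⟨⟨h1, h2⟩, h3⟩
    refine ⟨h1, h2, fun σ => ?_⟩
    have h4 := (le_ciSup hb σ).trans h3
    exact ⟨(le_max_left _ _).trans h4, (le_max_right _ _).trans h4⟩

theorem irr_iff {F : Type} [Field F] [NumberField F] (a b : 𝓞 F) (v : HeightOneSpectrum (𝓞 F)) :
    IrreducibleMod (a, b) v ↔
      Irreducible (Pool.Agent.N783.PF.rd v.asIdeal (Pool.Agent.N61.PF.pol a b)) := Iff.rfl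

theorem good_of {F : Type} [Field F] [NumberField F] {Q T : Finset (HeightOneSpectrum (𝓞 F))}
    {B : ℕ} {f : (𝓞 F)[X]} (h1 : Pool.Agent.N783.PF.Ht 1 B f)
    (h2 : Irreducible (Pool.Agent.N783.PF.fF f))
    (h3 : (∀ v : HeightOneSpectrum (𝓞 F), (2 : 𝓞 F) ∈ v.asIdeal →
        Irreducible (Pool.Agent.N783.PF.rd v.asIdeal f)) ∧
      (∀ v ∈ T, Irreducible (Pool.Agent.N783.PF.rd v.asIdeal f)) ∧
      Pool.Agent.N874.TF.Tws 1 {𝔭 | ∃ v ∈ Q, 𝔭 = v.asIdeal} f ∧
      Pool.Agent.N874.TF.Uni {𝔭 | ∃ v ∈ Q, 𝔭 = v.asIdeal} f f) :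
    Good Q T (f.coeff 1, f.coeff 0) := by
  obtain ⟨a1, a2, a3, a4⟩ := h3
  have hd : f.natDegree = 3 := h1.deg
  have h2c : f.coeff 2 = 0 := h1.tr
  obtain ⟨D, a, b, b1, b2, b3, b4, b5, b6⟩ := Pool.Agent.N874.TF.tws_pol h1.mon hd h2c a3
  have he := Pool.Agent.N874.TF.eq_pol' h1.mon hd h2c
  obtain ⟨A, hA⟩ : ∃ A, A = f.coeff 1 := ⟨_, rfl⟩
  obtain ⟨B', hB⟩ : ∃ B', B' = f.coeff 0 := ⟨_, rfl⟩
  rw [← hA, ← hB] at he ⊢
  rw [← hA] at b2
  rw [← hB] at b3
  have hcub : ∀ (M : Type) [Field M] [NumberField M] [Algebra F M],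
      Pool.Agent.N874.TF.fM M (Pool.Agent.N61.PF.pol A B') = cubic M (A, B') := by
    intro M _ _ _
    exact Pool.Agent.N874.TF.fM_eq A B'
  subst he
  refine ⟨?_, fun v hv => (irr_iff _ _ v).2 (a1 v hv), fun v hv => (irr_iff _ _ v).2 (a2 v hv),
    ⟨D, (a, b), b1, by rw [b2, b3], b4, b5, fun v hv => ?_⟩, ?_⟩
  · have e : Pool.Agent.N783.PF.fF (Pool.Agent.N61.PF.pol A B') = cubic F (A, B') := by
      rw [← hcub F, Pool.Agent.N874.TF.fM]
      exact (Polynomial.map_id).symm
    rw [← e]
    exact h2
  · rcases b6 v hv with ⟨v', hv', h⟩ | h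
    · left
      rw [HeightOneSpectrum.ext h]
      exact hv'
    · exact Or.inr ((irr_iff _ _ v).2 h)
  · intro M _ _ _ hM
    haveI := hM.galois
    obtain ⟨n, hn⟩ := hM.degree
    have hspl : ∀ v : HeightOneSpectrum (𝓞 F), SplitsCompletely v M →
        Pool.Agent.N874.TF.Spl v M := by
      intro v hv
      refine ⟨Pool.Agent.N874.TF.unr_of hv.1, fun w hw y => ?_⟩
      obtain ⟨y, rfl⟩ := Ideal.Quotient.mk_surjective y
      obtain ⟨c, hc⟩ := hv.2 w (Ideal.map_le_iff_le_comap.2 hw) y
      exact ⟨c, (Ideal.Quotient.eq.2 hc).symm⟩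
    have hsel := a4 M (fun v hv => by
        obtain ⟨σ⟩ := hM.two v hv
        exact ⟨σ, fun y => σ.commutes y⟩) hM.real n hn (by
        rintro v ⟨v', hv', h⟩
        rw [HeightOneSpectrum.ext h]
        exact hspl v' (hM.split v' hv')) (by
        intro v hv
        rcases hM.ramified v with h | h
        · exact absurd (Pool.Agent.N874.TF.unr_of h) hv
        · exact (irr_iff _ _ v).1 h)
    have h5 := Pool.Agent.N874.TF.pts_of Pool.Agent.N783.PF.selc Pool.Agent.N713.QM.gfc
      Pool.Agent.N459.QM.finc hn h2 hsel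
    have h6 := (Pool.Agent.N874.TF.genuineF hn h1.mon (by rw [hd]; decide) h2 hsel).2
    rw [hcub] at h6
    exact ⟨h5.1, h5.2, h6⟩

/-- **Elliptic curves over every number field, over 2-extensions.** For every number field `F` and every
finite set `T` of primes there are a finite set `Q` of primes, disjoint from `T` and prime to 2, and
`c > 0` such that for all large `X` at least `c` times the number of all members of the family of height
at most `X` are good: in particular for ALL the extensions `M / F` in the class `C(E, Q)` the group `E(M)`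
is finite of odd order and the 2-primary part of the Tate-Shafarevich group of `E` over `M` is zero. -/
theorem result (F : Type) [Field F] [NumberField F] (T : Finset (HeightOneSpectrum (𝓞 F))) :
    (∀ X : ℝ, (UpTo F X).Finite) ∧
    ∃ Q : Finset (HeightOneSpectrum (𝓞 F)), Disjoint Q T ∧ (∀ v ∈ Q, (2 : 𝓞 F) ∉ v.asIdeal) ∧
      ∃ c : ℝ, 0 < c ∧ ∀ᶠ X : ℝ in atTop, 0 < (UpTo F X).ncard ∧
        c * ((UpTo F X).ncard : ℝ) ≤ ({p ∈ UpTo F X | Good Q T p}.ncard : ℝ) := by
  have hset : ∀ X : ℝ, UpTo F X = {p : 𝓞 F × 𝓞 F | Pool.Agent.N783.PF.Crv X p} := by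
    intro X
    ext p
    exact (crv_iff X p).symm
  obtain ⟨Q, hQ1, hQ2, hQ3⟩ := Pool.Agent.N874.TF.final F (g := 1) le_rfl T
  obtain ⟨c, hc, Y₀, h⟩ := Pool.Agent.N874.TF.fin_gen (F := F) Pool.Agent.N490.PF.pts
    (Pr := fun f => (∀ v : HeightOneSpectrum (𝓞 F), (2 : 𝓞 F) ∈ v.asIdeal →
        Irreducible (Pool.Agent.N783.PF.rd v.asIdeal f)) ∧
      (∀ v ∈ T, Irreducible (Pool.Agent.N783.PF.rd v.asIdeal f)) ∧
      Pool.Agent.N874.TF.Tws 1 {𝔭 | ∃ v ∈ Q, 𝔭 = v.asIdeal} f ∧
      Pool.Agent.N874.TF.Uni {𝔭 | ∃ v ∈ Q, 𝔭 = v.asIdeal} f f)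
    (Gd := Good Q T) (by
      obtain ⟨c, hc, B₀, hB₀⟩ := hQ3
      refine ⟨c, hc, B₀, fun B hB => ?_⟩
      obtain ⟨h1, h2⟩ := hB₀ B hB
      refine ⟨h1, h2.trans ?_⟩
      have h3 := Set.ncard_le_ncard
        (s := {f : (𝓞 F)[X] | Pool.Agent.N783.PF.Ht 1 B f ∧
          Irreducible (Pool.Agent.N783.PF.fF f) ∧
          (∀ v : HeightOneSpectrum (𝓞 F), (2 : 𝓞 F) ∈ v.asIdeal →
            Irreducible (Pool.Agent.N783.PF.rd v.asIdeal f)) ∧
          (∀ v ∈ T, Irreducible (Pool.Agent.N783.PF.rd v.asIdeal f)) ∧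
          Pool.Agent.N874.TF.Tws 1 {𝔭 | ∃ v ∈ Q, 𝔭 = v.asIdeal} f ∧
          Pool.Agent.N874.TF.Uni {𝔭 | ∃ v ∈ Q, 𝔭 = v.asIdeal} f f ∧
          Pool.Agent.N783.PF.Min 1 f})
        (t := {f : (𝓞 F)[X] | Pool.Agent.N783.PF.Ht 1 B f ∧
          Irreducible (Pool.Agent.N783.PF.fF f) ∧
          ((∀ v : HeightOneSpectrum (𝓞 F), (2 : 𝓞 F) ∈ v.asIdeal →
            Irreducible (Pool.Agent.N783.PF.rd v.asIdeal f)) ∧
          (∀ v ∈ T, Irreducible (Pool.Agent.N783.PF.rd v.asIdeal f)) ∧
          Pool.Agent.N874.TF.Tws 1 {𝔭 | ∃ v ∈ Q, 𝔭 = v.asIdeal} f ∧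
          Pool.Agent.N874.TF.Uni {𝔭 | ∃ v ∈ Q, 𝔭 = v.asIdeal} f f) ∧
          Pool.Agent.N783.PF.Min 1 f})
        (fun f hf => ⟨hf.1, hf.2.1, ⟨hf.2.2.1, hf.2.2.2.1, hf.2.2.2.2.1, hf.2.2.2.2.2.1⟩,
          hf.2.2.2.2.2.2⟩)
        (h1.subset fun f hf => hf.1)
      exact_mod_cast h3)
    (fun B f h1 h2 h3 => good_of h1 h2 h3)
  refine ⟨fun X => by rw [hset]; exact (h X).1, Q, hQ1, hQ2, c, hc, ?_⟩
  filter_upwards [eventually_ge_atTop Y₀] with X hX
  obtain ⟨h1, h2⟩ := (h X).2 hX
  rw [hset]
  exact ⟨h1, h2⟩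

end Pool.Agent.Results.MP_bd895b_nt.EveryNumberFieldAtTwo
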